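import Mathlib

/-! Project MO: the algebra of the matrix of the complex structure of a 1-motive, general form
(helper136). -/

set_option autoImplicit false
set_option linter.unusedSectionVars false

namespace Pool.Agent.N136.MO

open Module Matrix

noncomputable section

variable {V : Type} [AddCommGroup V] [Module ℝ V] {m n s : ℕ} (b : Basis (Fin m) ℝ V)
  (J : V →ₗ[ℝ] V) (e : Fin s → (V →ₗ[ℝ] ℝ))

/-- the matrix of a pair of linear maps, composed with a linear map `K` -/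
def XM (K : V →ₗ[ℝ] V) (L : V →ₗ[ℝ] V) (q : Fin n → V) :
    Matrix (Fin m ⊕ (Fin s ⊕ Fin n)) (Fin m ⊕ (Fin s ⊕ Fin n)) ℂ :=
  Matrix.of fun r r' =>
  Sum.elim (fun j => Sum.elim (fun j' => ((b.repr (K (b j)) j' : ℝ) : ℂ))
      (Sum.elim (fun l => ((e l (L (b j)) : ℝ) : ℂ))
        (fun _ => 0)) r')
    (Sum.elim (fun _ => 0)
      (fun i => Sum.elim (fun j' => ((b.repr (K (q i)) j' : ℝ) : ℂ))
        (Sum.elim (fun l => ((e l (L (q i)) : ℝ) : ℂ))
          (fun _ => 0)) r')) r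

theorem key1 (K : V →ₗ[ℝ] V) (u : V) (j' : Fin m) :
    ∑ x, ((b.repr u x : ℝ) : ℂ) * ((b.repr (K (b x)) j' : ℝ) : ℂ) =
      ((b.repr (K u) j' : ℝ) : ℂ) := by
  have h : K u = ∑ x, b.repr u x • K (b x) := by
    conv_lhs => rw [← b.sum_repr u]
    rw [map_sum]
    exact Finset.sum_congr rfl fun x _ => map_smul _ _ _
  rw [h, map_sum, Finsupp.finsetSum_apply, Complex.ofReal_sum]
  refine Finset.sum_congr rfl fun x _ => ?_
  rw [map_smul, Finsupp.smul_apply, smul_eq_mul, Complex.ofReal_mul]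

theorem key2 (f : V →ₗ[ℝ] ℝ) (u : V) :
    ∑ x, ((b.repr u x : ℝ) : ℂ) * ((f (b x) : ℝ) : ℂ) = ((f u : ℝ) : ℂ) := by
  have h : f u = ∑ x, b.repr u x * f (b x) := by
    conv_lhs => rw [← b.sum_repr u]
    rw [map_sum]
    exact Finset.sum_congr rfl fun x _ => by rw [map_smul, smul_eq_mul]
  rw [h, Complex.ofReal_sum]
  exact Finset.sum_congr rfl fun x _ => by rw [Complex.ofReal_mul]

theorem XM_mul (K L K' L' : V →ₗ[ℝ] V) (q : Fin n → V) :
    XM b e K L q * XM b e K' L' q = XM b e (K' ∘ₗ K) (L' ∘ₗ K) q := by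
  ext r r'
  rw [Matrix.mul_apply, Fintype.sum_sum_type, Fintype.sum_sum_type]
  rcases r with j | l | i <;> rcases r' with j' | l' | i' <;>
    simp only [XM, Matrix.of_apply, Sum.elim_inl, Sum.elim_inr, mul_zero, zero_mul,
      Finset.sum_const_zero, add_zero, LinearMap.comp_apply]
  · exact key1 b K' _ _
  · exact key2 b ((e l').comp L') _
  · exact key1 b K' _ _
  · exact key2 b ((e l').comp L') _

theorem XM_neg (K L : V →ₗ[ℝ] V) (q : Fin n → V) : XM b e (-K) (-L) q = -XM b e K L q := by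
  ext r r'
  rcases r with j | l | i <;> rcases r' with j' | l' | i' <;>
    simp [XM, Matrix.neg_apply]

theorem XM_cube (hJ : ∀ u, J (J u) = -u) (q : Fin n → V) :
    XM b e J LinearMap.id q * XM b e J LinearMap.id q * XM b e J LinearMap.id q =
      -XM b e J LinearMap.id q := by
  rw [XM_mul, XM_mul, ← XM_neg]
  congr 1
  · ext u
    simp only [LinearMap.comp_apply, LinearMap.neg_apply, hJ, map_neg]
  · ext u
    simp only [LinearMap.comp_apply, LinearMap.neg_apply, LinearMap.id_apply, hJ]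

/-- a matrix with one block -/
def NM (m : ℕ) {n s : ℕ} (c : Fin n → Fin s → ℂ) :
    Matrix (Fin m ⊕ (Fin s ⊕ Fin n)) (Fin m ⊕ (Fin s ⊕ Fin n)) ℂ :=
  Matrix.of fun r r' => Sum.elim (fun _ => 0) (Sum.elim (fun _ => 0)
    (fun i => Sum.elim (fun _ => 0) (Sum.elim (fun l => c i l) (fun _ => 0)) r')) r

theorem XM_NM (K L : V →ₗ[ℝ] V) (q : Fin n → V) (c : Fin n → Fin s → ℂ) :
    XM b e K L q * NM m c = 0 ∧ NM m c * XM b e K L q = 0 ∧ NM m c * NM m c = 0 := by
  refine ⟨?_, ?_, ?_⟩ <;> ext r r' <;>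
    rw [Matrix.mul_apply, Fintype.sum_sum_type, Fintype.sum_sum_type] <;>
    rcases r with j | l | i <;> rcases r' with j' | l' | i' <;>
    simp [XM, NM]

end

end Pool.Agent.N136.MO
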