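import Pool.Agent.N192.MO.StmA
import Pool.Agent.N136.MO.XJ0

/-! Project MO: the algebra of the matrix of the complex structure of a 1-motive (helper136). -/

set_option autoImplicit false

namespace Pool.Agent.N136.MO

open Pool.Agent.Y102 Pool.Agent.R917.OM

theorem xj : Pool.Agent.N192.MO.S_XJ := by
  intro g n s A d
  have h1 : XJ A d = XM A.lam (fun l => A.E (Complex.I • pt d (Sum.inr l))) AbVar.JJ
      LinearMap.id (fun i => pt d (Sum.inl i)) := rfl
  refine ⟨?_, fun c => ?_⟩
  · rw [h1]
    refine XM_cube _ _ _ (fun u => ?_) _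
    rw [AbVar.JJ_apply, AbVar.JJ_apply, smul_smul, Complex.I_mul_I, neg_one_smul]
  · have h2 : Pool.Agent.N192.MO.N2 g c = NM (2 * g) c := rfl
    rw [h1, h2]
    exact XM_NM _ _ _ _ _ _

end Pool.Agent.N136.MO
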